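import Pool.Agent.AT12.Stmts2
import Pool.Agent.Helper62_AT3.CO2

/-!
# Squad AT12, row QOR: block orthogonality for elements of the blocks of the centralisers
-/

open scoped BigOperators

noncomputable section

namespace Pool.Agent.PP.T12.H45

open Pool.Agent.Helper51_AWC Pool.Agent.Helper79_WRA Pool.Agent.PP Pool.Agent.PP.KF
open Pool.Agent.PP.K9 Pool.Agent.PP.K9.H97 Pool.Agent.PP.H75 Pool.Agent.PP.T3 Pool.Agent.PP.T2
open Pool.Agent.PP.T8 Pool.Agent.PP.T12

attribute [local instance] Ideal.Quotient.field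

section tools

variable {M : Ideal (integralClosure ℤ ℂ)} [M.IsMaximal] {G : Type} [Group G] [Finite G]

/-- the sum over a subgroup -/
theorem sumext [Fintype G] (C : Subgroup G) (f : C → ℂ) (h : G → ℂ) :
    ∑ᶠ c : C, f c * h c = ∑ g : G, H75.ext0 C f g * h g := by
  classical
  have := Fintype.ofFinite C
  rw [finsum_eq_sum_of_fintype]
  have h1 : ∀ g : G, H75.ext0 C f g * h g = ∑ c : C, if (c : G) = g then f c * h c else 0 := by
    intro g
    by_cases hg : g ∈ C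
    · rw [Finset.sum_eq_single (⟨g, hg⟩ : C)]
      · rw [if_pos rfl, H75.ext0, dif_pos hg]
      · intro c _ hc
        rw [if_neg]
        intro h'
        exact hc (Subtype.ext h')
      · intro h'; exact absurd (Finset.mem_univ _) h'
    · rw [H75.ext0, dif_neg hg, zero_mul, Finset.sum_eq_zero]
      intro c _
      rw [if_neg]
      intro h'
      exact hg (h' ▸ c.2)
  rw [Finset.sum_congr rfl (fun g _ => h1 g), Finset.sum_comm]
  refine Finset.sum_congr rfl fun c _ => ?_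
  simp

/-- the adjoint of `q`, and the idempotent acts on it in the same way -/
theorem adj_eh {C : Type} [Group C] [Finite C] (b : C → FF M) {q : C → ℂ}
    (h : mulF q (eh M b) = q) :
    mulF (fun s => starRingEnd ℂ (q s⁻¹)) (eh M b) = fun s => starRingEnd ℂ (q s⁻¹) := by
  have := Fintype.ofFinite C
  funext s
  show (∑ᶠ t, starRingEnd ℂ (q t⁻¹) * eh M b (t⁻¹ * s)) = starRingEnd ℂ (q s⁻¹)
  have h1 : q s⁻¹ = ∑ t, q t * eh M b (t⁻¹ * s⁻¹) := by
    conv_lhs => rw [← h]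
    exact finsum_eq_sum_of_fintype _
  rw [h1, map_sum, finsum_eq_sum_of_fintype, ← Equiv.sum_comp (Equiv.inv C)]
  refine Finset.sum_congr rfl fun t _ => ?_
  show starRingEnd ℂ (q t⁻¹⁻¹) * eh M b (t⁻¹⁻¹ * s) = starRingEnd ℂ (q t * eh M b (t⁻¹ * s⁻¹))
  rw [map_mul, H10.eh_conj, inv_inv]
  congr 1
  have h2 : (t⁻¹ * s⁻¹)⁻¹ = s * t := by group
  rw [h2]
  have h3 := KF.H25.eh_cl b (s * t) t
  rw [← h3]
  congr 1
  group

end tools

/-- Row QOR. -/
theorem qor : QorStmt := by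
  intro ℓ hℓ M _ hM G _ _ u u' hu hu' b b' hb hb' hcon q q' hq hq' hqb hqb'
  classical
  have := Fintype.ofFinite G
  obtain ⟨E, hE⟩ : ∃ E : G → ℂ, E = H75.ext0 (Cu u) (eh M (fun t : Cu u => b t)) := ⟨_, rfl⟩
  obtain ⟨E', hE'⟩ : ∃ E' : G → ℂ, E' = H75.ext0 (Cu u') (eh M (fun t : Cu u' => b' t)) :=
    ⟨_, rfl⟩
  obtain ⟨B, hB⟩ : ∃ B : G → ℂ, B = H75.ext0 (Cu u) q := ⟨_, rfl⟩
  obtain ⟨B', hB'⟩ : ∃ B' : G → ℂ, B' = H75.ext0 (Cu u')
    (fun s => starRingEnd ℂ (q' s⁻¹)) := ⟨_, rfl⟩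
  -- regularity of the support
  have hreg : ∀ g, B g ≠ 0 → g ∈ Cu u ∧ Reg ℓ g := by
    intro g hg
    rw [hB] at hg
    by_cases h : g ∈ Cu u
    · refine ⟨h, ?_⟩
      by_contra hcon
      apply hg
      rw [H75.ext0, dif_pos h]
      exact hq.sg ⟨g, h⟩ (fun hr => hcon (T3.H62.reg_coe hr))
    · exact absurd (H75.ext0_supp _ _ g h) hg
  have hreg' : ∀ g, B' g ≠ 0 → g ∈ Cu u' ∧ Reg ℓ g := by
    intro g hg
    rw [hB'] at hg
    by_cases h : g ∈ Cu u'
    · refine ⟨h, ?_⟩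
      by_contra hcon
      apply hg
      rw [H75.ext0, dif_pos h]
      have h1 : q' (⟨g, h⟩ : Cu u')⁻¹ = 0 := by
        apply hq'.sg
        intro hr
        have h2 : Reg ℓ (⟨g, h⟩ : Cu u') := by
          unfold Reg at hr ⊢
          rwa [orderOf_inv] at hr
        exact hcon (T3.H62.reg_coe h2)
      rw [h1, map_zero]
    · exact absurd (H75.ext0_supp _ _ g h) hg
  -- the values
  have e1 : ∀ χ : G → ℂ, gbv (Cu u) u q χ = chv (fun g => B (u⁻¹ * g)) χ := by
    intro χ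
    change (∑ᶠ c : Cu u, q c * χ (u * c)) = ∑ᶠ g, B (u⁻¹ * g) * χ g
    rw [sumext (Cu u) q (fun g => χ (u * g)), finsum_eq_sum_of_fintype,
      ← Equiv.sum_comp (Equiv.mulLeft u) (fun g => B (u⁻¹ * g) * χ g), hB]
    refine Finset.sum_congr rfl fun g _ => ?_
    simp only [Equiv.coe_mulLeft, inv_mul_cancel_left]
  have e2 : ∀ χ ∈ Irr G, starRingEnd ℂ (gbv (Cu u') u' q' χ) =
      chv (fun g => B' (u' * g)) χ := by
    intro χ hχ
    change starRingEnd ℂ (∑ᶠ c : Cu u', q' c * χ (u' * c)) = ∑ᶠ g, B' (u' * g) * χ g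
    have := Fintype.ofFinite (Cu u')
    rw [finsum_eq_sum_of_fintype, map_sum, ← Equiv.sum_comp (Equiv.inv (Cu u'))]
    have e3 : ∀ c : Cu u', starRingEnd ℂ (q' ((Equiv.inv (Cu u')) c) *
        χ (u' * (((Equiv.inv (Cu u')) c : Cu u') : G))) =
        (fun s : Cu u' => starRingEnd ℂ (q' s⁻¹)) c * χ (u'⁻¹ * c) := by
      intro c
      rw [map_mul, H94.irr_star hχ]
      have e4 : (u' * (((Equiv.inv (Cu u')) c : Cu u') : G))⁻¹ = u'⁻¹ * c := by
        have h1 : ((((Equiv.inv (Cu u')) c : Cu u') : G)) = (c : G)⁻¹ := rfl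
        rw [h1, mul_inv_rev, inv_inv]
        exact ((T3.H62.comm_Cu c.2).inv_right).eq
      rw [e4]
      rfl
    rw [Finset.sum_congr rfl (fun c _ => e3 c), ← finsum_eq_sum_of_fintype,
      sumext (Cu u') (fun s => starRingEnd ℂ (q' s⁻¹)) (fun g => χ (u'⁻¹ * g)),
      finsum_eq_sum_of_fintype,
      ← Equiv.sum_comp (Equiv.mulLeft u'⁻¹) (fun g => B' (u' * g) * χ g), hB']
    refine Finset.sum_congr rfl fun g _ => ?_
    simp only [Equiv.coe_mulLeft, mul_inv_cancel_left]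
  have e6 : ∑ᶠ χ ∈ Irr G, gbv (Cu u) u q χ * starRingEnd ℂ (gbv (Cu u') u' q' χ) =
      ∑ᶠ χ ∈ Irr G, chv (fun g => B (u⁻¹ * g)) χ * chv (fun g => B' (u' * g)) χ := by
    refine finsum_mem_congr rfl fun χ hχ => ?_
    rw [e1, e2 χ hχ]
  rw [e6, Pool.Agent.PP.KF.trc]
  -- the idempotents act trivially
  have hBE : mulF B E = B := by
    have hs1 : ∀ z, z ∉ Cu u → B z = 0 := by
      rw [hB]; exact H75.ext0_supp _ _
    have hs2 : ∀ z, z ∉ Cu u → E z = 0 := by
      rw [hE]; exact H75.ext0_supp _ _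
    apply eq_of_res (mulF_supp (Cu u) hs1 hs2) hs1
    rw [mulF_res (Cu u) _ hs1]
    have h1 : (fun t : Cu u => B t) = q := by
      rw [hB]
      exact funext (H75.ext0_apply _ _)
    have h2 : (fun t : Cu u => E t) = eh M (fun t : Cu u => b t) := by
      rw [hE]
      exact funext (H75.ext0_apply _ _)
    rw [h1, h2]
    exact hqb
  have hEB' : mulF E' B' = B' := by
    have hs1 : ∀ z, z ∉ Cu u' → B' z = 0 := by
      rw [hB']; exact H75.ext0_supp _ _
    have hs2 : ∀ z, z ∉ Cu u' → E' z = 0 := by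
      rw [hE']; exact H75.ext0_supp _ _
    apply eq_of_res (mulF_supp (Cu u') hs2 hs1) hs1
    rw [mulF_res (Cu u') _ hs2]
    have h1 : (fun t : Cu u' => B' t) = fun s => starRingEnd ℂ (q' s⁻¹) := by
      rw [hB']
      exact funext (H75.ext0_apply _ _)
    have h2 : (fun t : Cu u' => E' t) = eh M (fun t : Cu u' => b' t) := by
      rw [hE']
      exact funext (H75.ext0_apply _ _)
    rw [h1, h2]
    have h3 : IsCl (eh M (fun t : Cu u' => b' t)) := fun x y => KF.H25.eh_cl _ x y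
    rw [mulF_comm_cl h3]
    exact adj_eh _ hqb'
  -- parts
  obtain ⟨N, -, hN⟩ := H27.prt ℓ G
  refine finsum_eq_zero_of_forall_eq_zero fun x => ?_
  by_cases hx : x * u' * x⁻¹ = u
  · -- the lift of the product
    have h0 := hcon x hx
    let φ := T3.H62.cjE hx
    have hcx : ∀ z, z ∈ Cu u ↔ x⁻¹ * z * x ∈ Cu u' := by
      intro z
      constructor
      · intro hz
        exact (φ.symm ⟨z, hz⟩).2
      · intro hz
        have h1 := (φ ⟨x⁻¹ * z * x, hz⟩).2
        change x * (x⁻¹ * z * x) * x⁻¹ ∈ Cu u at h1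
        have h2 : x * (x⁻¹ * z * x) * x⁻¹ = z := by group
        rwa [h2] at h1
    have hE0 : mulF E (H75.cj x E') = 0 := by
      have hs1 : ∀ z, z ∉ Cu u → E z = 0 := by
        rw [hE]; exact H75.ext0_supp _ _
      have hs2 : ∀ z, z ∉ Cu u → H75.cj x E' z = 0 := by
        intro z hz
        change E' (x⁻¹ * z * x) = 0
        rw [hE']
        apply H75.ext0_supp
        intro h
        exact hz ((hcx z).2 h)
      apply eq_of_res (mulF_supp (Cu u) hs1 hs2) (fun _ _ => rfl)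
      rw [mulF_res (Cu u) _ hs1]
      have h1 : (fun t : Cu u => E t) = eh M (fun t : Cu u => b t) := by
        rw [hE]
        exact funext (H75.ext0_apply _ _)
      have h2 : (fun t : Cu u => H75.cj x E' t) = eh M (fun t : Cu u => H75.cj x b' t) := by
        funext t
        have h3 := T3.H62.eh_equiv (M := M) φ hb'.idem.1 (φ.symm t)
        rw [φ.apply_symm_apply] at h3
        have h4 : (fun y : Cu u => b' ((φ.symm y : Cu u') : G)) =
            fun t : Cu u => H75.cj x b' t := rfl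
        rw [h4] at h3
        rw [h3]
        change E' (x⁻¹ * (t : G) * x) = _
        rw [hE']
        exact H75.ext0_apply (Cu u') _ (φ.symm t)
      rw [h1, h2]
      have h5 : IsIdem (fun t : Cu u => H75.cj x b' t) := by
        refine ⟨?_, ?_⟩
        · intro z y
          change b' (x⁻¹ * ((y : G) * z * (y : G)⁻¹) * x) = b' (x⁻¹ * z * x)
          have h6 := hb'.idem.1 (φ.symm z) (φ.symm y)
          have h7 : ((φ.symm y * φ.symm z * (φ.symm y)⁻¹ : Cu u') : G) =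
              x⁻¹ * ((y : G) * z * (y : G)⁻¹) * x := by
            rw [← map_inv, ← map_mul, ← map_mul]
            rfl
          change b' ((φ.symm y * φ.symm z * (φ.symm y)⁻¹ : Cu u') : G) = b' (x⁻¹ * z * x) at h6
          rw [h7] at h6
          exact h6
        · have hs3 : ∀ z, z ∉ Cu u → H75.cj x b' z = 0 := by
            intro z hz
            change b' (x⁻¹ * z * x) = 0
            apply hb'.supp
            intro h
            exact hz ((hcx z).2 h)
          rw [← mulF_res (Cu u) (H75.cj x b') hs3, ← cj_mulF, hb'.mul]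
      have h6 : mulF (fun t : Cu u => b t) (fun t : Cu u => H75.cj x b' t) = 0 := by
        rw [← mulF_res (Cu u) (H75.cj x b') hb.supp, h0]
        rfl
      exact T3.H62.eh_orth hb.idem h5 h6
    have hB0 : mulF B (H75.cj x B') = 0 := by
      have z1 : ∀ a : G → ℂ, mulF 0 a = 0 := by
        intro a
        funext y
        show (∑ᶠ t, (0 : G → ℂ) t * a (t⁻¹ * y)) = 0
        simp
      have z2 : ∀ a : G → ℂ, mulF a 0 = 0 := by
        intro a
        funext y
        show (∑ᶠ t, a t * (0 : G → ℂ) (t⁻¹ * y)) = 0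
        simp
      rw [← hBE, ← hEB', cj_mulF, Pool.Agent.PP.mulF_assoc, ← Pool.Agent.PP.mulF_assoc E, hE0,
        z1, z2]
    have h1 := congrFun hB0 1
    change (∑ᶠ t, B t * B' (x⁻¹ * (t⁻¹ * 1) * x)) = 0 at h1
    rw [finsum_eq_sum_of_fintype] at h1 ⊢
    rw [← h1, ← Equiv.sum_comp (Equiv.mulLeft u)
      (fun g => B (u⁻¹ * g) * B' (u' * (x⁻¹ * g⁻¹ * x)))]
    refine Finset.sum_congr rfl fun g _ => ?_
    simp only [Equiv.coe_mulLeft, inv_mul_cancel_left, mul_one]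
    by_cases hg : B g = 0
    · rw [hg, zero_mul, zero_mul]
    · congr 2
      have h2 : Commute g u := T3.H62.comm_Cu (hreg g hg).1
      have h3 : u' = x⁻¹ * u * x := by rw [← hx]; group
      rw [h3, h2.symm.eq, mul_inv_rev]
      group
  · refine finsum_eq_zero_of_forall_eq_zero fun g => ?_
    by_contra hne
    have h1 : B (u⁻¹ * g) ≠ 0 := left_ne_zero_of_mul hne
    have h2 : B' (u' * (x⁻¹ * g⁻¹ * x)) ≠ 0 := right_ne_zero_of_mul hne
    obtain ⟨s, hs⟩ : ∃ s, s = u⁻¹ * g := ⟨_, rfl⟩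
    obtain ⟨s', hs'⟩ : ∃ s', s' = u' * (x⁻¹ * g⁻¹ * x) := ⟨_, rfl⟩
    rw [← hs] at h1
    rw [← hs'] at h2
    obtain ⟨hsC, hsR⟩ := hreg s h1
    obtain ⟨hsC', hsR'⟩ := hreg' s' h2
    have hg : g = u * s := by rw [hs]; group
    have h3 : x⁻¹ * (s⁻¹ * u⁻¹) * x = s' * u'⁻¹ := by
      have h4 : Commute s' u'⁻¹ := (T3.H62.comm_Cu hsC').inv_right
      rw [h4.eq, hs', hg, mul_inv_rev]
      group
    have hsi : Reg ℓ s⁻¹ := by
      unfold Reg at hsR ⊢
      rwa [orderOf_inv]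
    have hinv : ∀ {y : G}, El ℓ y → ∃ n : ℕ, (y⁻¹) ^ ℓ ^ n = 1 := by
      rintro y ⟨n, hn⟩
      exact ⟨n, by rw [inv_pow, hn, inv_one]⟩
    have k1 : (s⁻¹ * u⁻¹) ^ N = s⁻¹ :=
      hN s⁻¹ u⁻¹ (T3.H62.comm_Cu hsC).inv_inv hsi (hinv hu)
    have k2 : (s' * u'⁻¹) ^ N = s' :=
      hN s' u'⁻¹ (T3.H62.comm_Cu hsC').inv_right hsR' (hinv hu')
    have h5 : x⁻¹ * s⁻¹ * x = s' := by
      rw [← k2, ← h3]
      have h6 : x⁻¹ * (s⁻¹ * u⁻¹) * x = x⁻¹ * (s⁻¹ * u⁻¹) * (x⁻¹)⁻¹ := by group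
      rw [h6, conj_pow, k1]
      group
    apply hx
    have h7 : x⁻¹ * (s⁻¹ * u⁻¹) * x = (x⁻¹ * s⁻¹ * x) * (x⁻¹ * u⁻¹ * x) := by group
    rw [h7, h5] at h3
    have h8 : x⁻¹ * u⁻¹ * x = u'⁻¹ := mul_left_cancel h3
    have h9 : u' = x⁻¹ * u * x := by
      have h10 := congrArg (·⁻¹) h8
      simp only [inv_inv, mul_inv_rev] at h10
      rw [← h10]
      group
    rw [h9]
    group

end Pool.Agent.PP.T12.H45
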